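import Mathlib
import Pool.Agent.Helper148.NonFree
import Pool.Agent.Helper148.Shift
import Pool.Agent.Helper148.Pitt
import Pool.Agent.Helper148.Path

set_option autoImplicit false

namespace Pool.Agent.Results.MP_978236_an.Main

open Pool.Agent.Helper148.PM (IsHolo OO Hol IsPolynormedSpace)
open scoped Topology

universe u v w

noncomputable section

/-- The algebra `O(U)` of holomorphic functions on `U`, with the compact-open topology. -/
def HolAlg (U : Set ℂ) : Type := OO U

instance (U : Set ℂ) : CommRing (HolAlg U) := Subalgebra.toCommRing (OO U)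
instance (U : Set ℂ) : Algebra ℂ (HolAlg U) := Subalgebra.algebra (OO U)
instance (U : Set ℂ) : TopologicalSpace (HolAlg U) := instTopologicalSpaceSubtype

/-- A holomorphic function as a continuous function. -/
def HolAlg.fn {U : Set ℂ} (h : HolAlg U) : C(U, ℂ) := Subtype.val h

section HolE

variable (U : Set ℂ) (E : Type u) [AddCommGroup E] [Module ℂ E] [TopologicalSpace E]
  [IsTopologicalAddGroup E] [ContinuousSMul ℂ E]

/-- The space `O(U, E)` of holomorphic maps from `U` to `E`, with the compact-open topology. -/
def HolSp : Type u := Hol U E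

instance : AddCommGroup (HolSp U E) := Submodule.addCommGroup (Hol U E)
instance : Module ℂ (HolSp U E) := Submodule.module (Hol U E)
instance : TopologicalSpace (HolSp U E) := instTopologicalSpaceSubtype

end HolE

section Act

variable {U : Set ℂ} {E : Type u} [AddCommGroup E] [Module ℂ E] [TopologicalSpace E]
  [IsTopologicalAddGroup E] [ContinuousSMul ℂ E]

/-- A holomorphic map as a continuous map. -/
def HolSp.fn (f : HolSp U E) : C(U, E) := Subtype.val f

/-- The pointwise product of a holomorphic function and a holomorphic map. -/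
def act (h : HolAlg U) (f : HolSp U E) : HolSp U E := ⟨h.fn • f.fn, IsHolo.smul' h.2 f.2⟩

theorem act_one (f : HolSp U E) : act 1 f = f := Subtype.ext (one_smul C(U, ℂ) f.fn)
theorem act_mul (h k : HolAlg U) (f : HolSp U E) : act (h * k) f = act h (act k f) :=
  Subtype.ext (mul_smul h.fn k.fn f.fn)
theorem act_zero (h : HolAlg U) : act h (0 : HolSp U E) = 0 := Subtype.ext (smul_zero h.fn)
theorem act_add (h : HolAlg U) (f g : HolSp U E) : act h (f + g) = act h f + act h g :=
  Subtype.ext (smul_add h.fn f.fn g.fn)
theorem add_act (h k : HolAlg U) (f : HolSp U E) : act (h + k) f = act h f + act k f :=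
  Subtype.ext (add_smul h.fn k.fn f.fn)
theorem zero_act (f : HolSp U E) : act 0 f = 0 := Subtype.ext (zero_smul C(U, ℂ) f.fn)

/-- `O(U, E)` is an `O(U)`-module under pointwise multiplication. -/
instance : Module (HolAlg U) (HolSp U E) where
  smul := act
  one_smul := act_one
  mul_smul := act_mul
  smul_zero := act_zero
  smul_add := act_add
  add_smul := add_act
  zero_smul := zero_act

end Act

/-- A polynormed `O(U)`-module: a polynormed (complete Hausdorff locally convex) space with a unital
`O(U)`-module structure, compatible with the complex scalars, whose action `O(U) × X → X` is jointly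
continuous. -/
class IsPolynormedModule (U : Set ℂ) (X : Type u) [AddCommGroup X] [Module ℂ X] [UniformSpace X]
    [Module (HolAlg U) X] : Prop where
  polynormed : IsPolynormedSpace X
  compatible : ∀ (c : ℂ) (h : HolAlg U) (x : X), (c • h) • x = c • (h • x)
  jointly_continuous : Continuous fun p : HolAlg U × X => p.1 • p.2

/-- Projectivity in the sense of topological homology: every morphism `φ : Y → X` of polynormed
`O(U)`-modules with a continuous linear right inverse `ρ` has a right inverse `σ` which is a
morphism (a continuous `O(U)`-linear map). -/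
def IsProjectiveModule (U : Set ℂ) (X : Type u) [AddCommGroup X] [Module ℂ X] [UniformSpace X]
    [Module (HolAlg U) X] : Prop :=
  ∀ (Y : Type v) [AddCommGroup Y] [Module ℂ Y] [UniformSpace Y] [Module (HolAlg U) Y]
    [IsPolynormedModule U Y] (φ : Y →L[HolAlg U] X) (ρ : X →L[ℂ] Y), (∀ x, φ (ρ x) = x) →
    ∃ σ : X →L[HolAlg U] Y, ∀ x, φ (σ x) = x

/-- A free module: topologically isomorphic, as an `O(U)`-module, to `O(U, E)` for some polynormed
space `E`. -/
def IsFreeModule (U : Set ℂ) (X : Type u) [AddCommGroup X] [UniformSpace X]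
    [Module (HolAlg U) X] : Prop :=
  ∃ (E : Type w) (_ : AddCommGroup E) (_ : Module ℂ E) (_ : UniformSpace E)
    (_ : IsPolynormedSpace E), Nonempty (X ≃L[HolAlg U] HolSp U E)

/-- Sanity check: `O(U, E)` itself is free. -/
lemma free_self (U : Set ℂ) (E : Type w) [AddCommGroup E] [Module ℂ E] [UniformSpace E]
    [IsPolynormedSpace E] :
    @IsFreeModule.{w, w} U (HolSp U E) _ (instUniformSpaceSubtype : UniformSpace (Hol U E)) _ :=
  ⟨E, inferInstance, inferInstance, inferInstance, inferInstance,
    ⟨ContinuousLinearEquiv.refl (HolAlg U) (HolSp U E)⟩⟩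

end

noncomputable section

open Pool.Agent.Helper148.PM

lemma blk_TU (f : H2) : blk (H := H2) (G := L1) (TU : (H2 × L1) →L[ℂ] (H2 × L1)) f = SR 2 hp2 f := by
  ext n
  show (TT (f, (0 : L1))).1 n = (SR 2 hp2 f) n
  rw [TT_fst]
  have : ((0 : L1) : ℕ → ℂ) 0 = 0 := rfl
  show (SR 2 hp2 f) n + ((0 : L1) : ℕ → ℂ) 0 * (lp.single 2 0 (1 : ℂ) : H2) n = _
  rw [this]
  ring

lemma not_free {E : Type w} [AddCommGroup E] [Module ℂ E] [UniformSpace E] [IsPolynormedSpace E]
    (e : XT TU ≃L[OO U0] Hol U0 E) : False := by
  have hM : Continuous fun t : ℝ => ((MM e (t : ℂ) : ((H2 × L1) →L[ℂ] (H2 × L1))ˣ) :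
      (H2 × L1) →L[ℂ] (H2 × L1)) := (MM_cont e).comp Complex.continuous_ofReal
  have h := path_lemma (H := H2) (G := L1) (fun b => compact_to_l1 b) (fun t : ℝ => MM e (t : ℂ)) hM (by
    have h0 : ((MM e (((0 : ℝ) : ℂ)) : ((H2 × L1) →L[ℂ] (H2 × L1))ˣ) :
      (H2 × L1) →L[ℂ] (H2 × L1)) = 1 := by
      rw [Complex.ofReal_zero]; exact MM_zero e
    rw [h0, blk_one]
    refine ⟨1, ?_⟩
    rw [Units.val_one, sub_self]
    exact isCompactOperator_zero)
  have h1 : ((MM e (((1 : ℝ) : ℂ)) : ((H2 × L1) →L[ℂ] (H2 × L1))ˣ) :
      (H2 × L1) →L[ℂ] (H2 × L1)) = (TU : (H2 × L1) →L[ℂ] (H2 × L1)) := by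
    rw [Complex.ofReal_one]; exact MM_one e
  rw [h1] at h
  obtain ⟨V, hV⟩ := h
  have hinj : Function.Injective (blk (H := H2) (G := L1) (TU : (H2 × L1) →L[ℂ] (H2 × L1))) := by
    intro f g hfg
    rw [blk_TU, blk_TU] at hfg
    ext n
    have := congrArg (fun k : H2 => k (n + 1)) hfg
    exact this
  have hsurj := surj_of_inj _ hinj V hV
  obtain ⟨f, hf⟩ := hsurj (lp.single 2 0 (1 : ℂ))
  rw [blk_TU] at hf
  have h2 := congrArg (fun k : H2 => k 0) hf
  simp only [SR_apply_zero] at h2
  rw [single_zero_zero] at h2
  exact zero_ne_one h2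

/-- The module of sections over the new type of the algebra. -/
instance : Module (HolAlg U0) (XT TU) := inferInstanceAs (Module (OO U0) (XT TU))

instance : Main.IsPolynormedModule U0 (XT TU) where
  polynormed := inferInstance
  compatible c h x := smul_assoc (M := ℂ) (N := OO U0) (α := XT TU) c h x
  jointly_continuous := by
    have h : Continuous fun p : OO U0 × XT TU => p.1 • p.2 := continuous_smul
    exact h

end

/-- There are a domain `U` in the complex plane (the case `n = 1`) and a projective polynormed
`O(U)`-module which is not topologically isomorphic to any free module `O(U, E)`. In the proof `U` is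
the punctured plane and the module is the space of entire maps `f : ℂ → ℓ² × ℓ¹` with
`f (z + 1) = T (f z)`, where `T` is the bilateral shift. -/
theorem result : ∃ U : Set ℂ, IsOpen U ∧ IsConnected U ∧
    ∃ (X : Type) (_ : AddCommGroup X) (_ : Module ℂ X) (_ : UniformSpace X)
      (_ : Module (HolAlg U) X), IsPolynormedModule U X ∧
      IsProjectiveModule.{0, v} U X ∧ ¬ IsFreeModule.{0, w} U X := by
  refine ⟨Pool.Agent.Helper148.PM.U0, Pool.Agent.Helper148.PM.U0_open, ?_,
    Pool.Agent.Helper148.PM.XT Pool.Agent.Helper148.PM.TU, inferInstance, inferInstance,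
    inferInstance, inferInstance, inferInstance, ?_, ?_⟩
  · exact isConnected_compl_singleton_of_one_lt_rank (by rw [Complex.rank_real_complex]; norm_num) 0
  · intro Y i1 i2 i3 i4 i5 φ ρ h
    let j4 : Module (OO Pool.Agent.Helper148.PM.U0) Y := i4
    have p := i5.polynormed
    have : Pool.Agent.Helper148.PM.IsPolynormedModule Pool.Agent.Helper148.PM.U0 Y :=
      { p with
        smul_assoc := i5.compatible
        jointly_continuous := ⟨i5.jointly_continuous⟩ }
    exact Pool.Agent.Helper148.PM.XT_projective (Y := Y) φ ρ h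
  · rintro ⟨E, i1, i2, i3, i4, ⟨e⟩⟩
    exact not_free e

end Pool.Agent.Results.MP_978236_an.Main
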